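import Pool.Agent.TH375.KL.Families

/-!
# Koblitz counts in one-parameter families of elliptic curves

Let `W` be a Weierstrass curve over `ℤ[T]` and `E_t` its member at the integer `t`.  For almost all `t` of an
arbitrary interval of length `N ≥ z²`, the numbers of primes `p ≤ x` for which `|E_t(F_p)| / m` is a prime number
agree with their mean values over the family with a square root error term, for all `m ≥ 1` and all `x ≤ z` at
once.
-/

set_option autoImplicit false

namespace Pool.Agent.Results.MP_b89fd0_nt.OneParameterFamilies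

/-- The member at the integer `t` of the one-parameter family `W` of Weierstrass curves. -/
noncomputable def member (W : WeierstrassCurve (Polynomial ℤ)) (t : ℤ) : WeierstrassCurve ℤ :=
  W.map (Polynomial.evalRingHom t)

/-- The number of points modulo `p`: the number of affine points plus one. -/
noncomputable def points (E : WeierstrassCurve ℤ) (p : ℕ) : ℕ :=
  {P : ZMod p × ZMod p |
    (E.map (Int.castRingHom (ZMod p))).toAffine.Equation P.1 P.2}.ncard + 1

open scoped Classical in
/-- The number of primes `p ≤ x` not dividing the discriminant for which `|E(F_p)| / m` is a prime number. -/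
noncomputable def koblitzCount (E : WeierstrassCurve ℤ) (m : ℕ) (x : ℕ) : ℕ :=
  (((Finset.range (x + 1)).filter Nat.Prime).filter fun p : ℕ =>
    ¬ (p : ℤ) ∣ E.Δ ∧ m ∣ points E p ∧ (points E p / m).Prime).card

open scoped Classical in
/-- The mean value over the family: the sum over the primes `p ≤ x` of the proportion of the residue classes
`u` modulo `p` with `p` not dividing the discriminant of `E_u` and `|E_u(F_p)| / m` a prime number. -/
noncomputable def familyMean (W : WeierstrassCurve (Polynomial ℤ)) (m : ℕ) (x : ℕ) : ℝ :=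
  ∑ p ∈ (Finset.range (x + 1)).filter Nat.Prime,
    (((Finset.range p).filter fun u : ℕ =>
      ¬ (p : ℤ) ∣ (member W u).Δ ∧ m ∣ points (member W u) p ∧
        (points (member W u) p / m).Prime).card : ℝ) / p

section
open Pool.Agent.TH375.KL

theorem red_eq (W : WeierstrassCurve (Polynomial ℤ)) {p : ℕ} {t u : ℤ} (h : (p : ℤ) ∣ t - u) :
    (member W t).map (Int.castRingHom (ZMod p)) = (member W u).map (Int.castRingHom (ZMod p)) := by
  unfold member
  rw [WeierstrassCurve.map_map, WeierstrassCurve.map_map]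
  congr 1
  refine Polynomial.ringHom_ext (fun a => ?_) ?_
  · simp
  · simp only [RingHom.coe_comp, Function.comp_apply, Polynomial.coe_evalRingHom,
      Polynomial.eval_X, Int.coe_castRingHom]
    rw [← sub_eq_zero, ← Int.cast_sub]
    exact (ZMod.intCast_zmod_eq_zero_iff_dvd _ _).2 h

theorem good_iff (E : WeierstrassCurve ℤ) (p : ℕ) :
    (p : ℤ) ∣ E.Δ ↔ (E.map (Int.castRingHom (ZMod p))).Δ = 0 := by
  rw [WeierstrassCurve.map_Δ, Int.coe_castRingHom, ZMod.intCast_zmod_eq_zero_iff_dvd]

/-- the event -/
abbrev ev (W : WeierstrassCurve (Polynomial ℤ)) (r : ℕ) (p : ℕ) (t : ℤ) : Prop :=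
  ¬ (p : ℤ) ∣ (member W t).Δ ∧ r ∣ points (member W t) p ∧ (points (member W t) p / r).Prime

theorem ev_congr (W : WeierstrassCurve (Polynomial ℤ)) (r : ℕ) {p : ℕ} {t u : ℤ}
    (h : (p : ℤ) ∣ t - u) : ev W r p t ↔ ev W r p u := by
  unfold ev points
  rw [good_iff, good_iff, red_eq W h]

open scoped Classical in
/-- the indicator function of the event -/
noncomputable def phi (W : WeierstrassCurve (Polynomial ℤ)) (r : ℕ) (p : ℕ) (t : ℤ) : ℝ :=
  if ev W r p t then 1 else 0

theorem phi_sq (W : WeierstrassCurve (Polynomial ℤ)) (r : ℕ) (p : ℕ) (t : ℤ) :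
    phi W r p t ^ 2 = phi W r p t := by
  unfold phi
  split_ifs <;> norm_num

theorem phi_per (W : WeierstrassCurve (Polynomial ℤ)) (r : ℕ) (p : ℕ) (t u : ℤ) (_ : p.Prime)
    (h : (p : ℤ) ∣ t - u) : phi W r p t = phi W r p u := by
  unfold phi
  by_cases h1 : ev W r p t
  · rw [if_pos h1, if_pos ((ev_congr W r h).1 h1)]
  · rw [if_neg h1, if_neg fun h2 => h1 ((ev_congr W r h).2 h2)]

theorem phi_eq (W : WeierstrassCurve (Polynomial ℤ)) (r : ℕ) (p : ℕ) (t : ℤ)
    [inst : Decidable (ev W r p t)] : (if ev W r p t then (1 : ℝ) else 0) = phi W r p t := by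
  unfold phi
  by_cases h1 : ev W r p t
  · rw [if_pos h1, if_pos h1]
  · rw [if_neg h1, if_neg h1]

theorem count_eq (W : WeierstrassCurve (Polynomial ℤ)) (r : ℕ) (t : ℤ) (x : ℕ) :
    (koblitzCount (member W t) r x : ℝ) = ∑ p ∈ Prm x, phi W r p t := by
  unfold koblitzCount Prm
  rw [Finset.card_filter]
  push_cast
  exact Finset.sum_congr rfl fun p _ => phi_eq W r p t

theorem mean_eq (W : WeierstrassCurve (Polynomial ℤ)) (r : ℕ) (x : ℕ) :
    familyMean W r x = ∑ p ∈ Prm x, mv (phi W r) p := by
  unfold familyMean Prm mv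
  refine Finset.sum_congr rfl fun p _ => ?_
  rw [Finset.card_filter]
  push_cast
  exact congrArg (· / (p : ℝ)) (Finset.sum_congr rfl fun u _ => phi_eq W r p (u : ℤ))

end

/-- **Koblitz counts for almost all members of a one-parameter family, all `m` and all `x` at once.**

Let `W` be a Weierstrass curve over `ℤ[T]` with members `E_t`, `S` a finite set of positive integers, `K > 0`.
For all but at most `6 (N + z²) / K` of the integers `t` in `(M, M + N]`, and for all choices of `x_m ≤ z`,
`∑_{m ∈ S} (π_{E_t, m}(x_m) - μ_m(x_m))² ≤ K (log₂ z + 2)² ∑_{m ∈ S} μ_m(z)`, where `π_{E, m}(x)` is the number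
of primes `p ≤ x` of good reduction with `|E(F_p)| / m` prime and `μ_m(x)` its mean value over the family. -/
theorem result (W : WeierstrassCurve (Polynomial ℤ)) (S : Finset ℕ) (M : ℤ) (N z : ℕ) (K : ℝ)
    (hK : 0 < K) :
    ({t : ℤ | M < t ∧ t ≤ M + N ∧ ∃ x : ℕ → ℕ, (∀ m, x m ≤ z) ∧
      K * (Nat.log 2 z + 2) ^ 2 * ∑ m ∈ S, familyMean W m z <
        ∑ m ∈ S, ((koblitzCount (member W t) m (x m) : ℝ) - familyMean W m (x m)) ^ 2}.ncard : ℝ) ≤
      6 * (N + (z : ℝ) ^ 2) / K :=
  Pool.Agent.TH375.KL.few_members S (phi W) (phi_sq W) (phi_per W) M N z hK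
    (fun r t x => (koblitzCount (member W t) r x : ℝ)) (familyMean W) (count_eq W) (mean_eq W)

end Pool.Agent.Results.MP_b89fd0_nt.OneParameterFamilies
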